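import Pool.Agent.H70.UX.Phf
import Pool.Agent.H62.BL.Bl2
import Pool.Agent.H62.BL.Nrs
import Pool.Agent.H35.NS2.Fin

/-!
# [H62 UY ONE] the box inequality `BGb` for one variable (`n = 0`), MP_b39724_nt, UBX

`N` is abelian of exponent `p`, one variable prime `q` with label `g ∈ N`. By the phase formula (H70/UX/Phf) the product over the fixed primes is a constant times
`ep (kp (F_q) g)`, `kp` the honest crossed homomorphism of the characters (`uni_fx`), and `Gk (word at q)` is a constant times the indicator of `φ (F_q) = f`. So the sum is a constant times the sum of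
`h0 (php (F_q))` over the primes of the box; `GLp` replaces `h0` by its mean over the conjugates, `GPU` bounds the sums of the class function, whose mean over the image is `0` since the box is linked.
* `h0`: the function. `tau`: the element of the image which multiplies `h0` by a constant `≠ 1`. `sm_eq`: the sum. `one_box`: one box.
* `SBG0 κ m`: the box inequality for `n = 0`. `one`: `GPU D Ω (κ + 2)` implies `Inp D Ω k j z (SBG0 D Ω κ m)` for `κ + 2 ≤ k`, `3 m + 1 ≤ k`. `pone`: `PInp` for all `p`.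
-/

set_option autoImplicit false
set_option linter.dupNamespace false

open scoped NumberField commutatorElement
open IsDedekindDomain
open scoped Classical

noncomputable section

namespace H62.UY

open H38.ML H63.MA H38.BB H38.BG H57.PC H57.BRA H57.GP H77.WD H77.WE H77.PC3 H35.CF H77.S3 H35.UB
  H48.UX H70.UX H77.INP H77.GL H57.AN H62.BL

variable {K : Type} [Field K] [NumberField K] {Ω : Type} [Field Ω] [Algebra K Ω]
  {p : ℕ} {ζ : K} {D : RD0 K p ζ} {L : LDs D Ω} {A : GS D Ω}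
  {P : Type} [Group P] {N : Subgroup P} [N.Normal]

/-- the function of the Frobenius element of the variable prime -/
def h0 (hn : Nk N (0 + 1) = ⊥) (g : P) (hg : g ∈ Nk N 0) (f : P ⧸ N)
    (r : Hs p (LL N 0 hn) (P ⧸ N)) : ℂ := if r.g = f then ep p (r.k (lm g hg)) else 0

omit [NumberField K] in
theorem h0_le (hn : Nk N (0 + 1) = ⊥) (g : P) (hg : g ∈ Nk N 0) (f : P ⧸ N)
    (r : Hs p (LL N 0 hn) (P ⧸ N)) : ‖h0 hn g hg f r‖ ≤ 1 := by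
  unfold h0
  split_ifs
  · rw [ep_norm]
  · rw [norm_zero]
    exact zero_le_one

section tau

variable {Fr : FR L} {Q : DP K Ω} {B : SD D Q A} {s E : Finset (Pl K)} {φ : Gal(Ω/K) →* P ⧸ N}
  {χ : Pl K → P → ZMod p} {kp : Gal(Ω/K) → P → ZMod p}

theorem tau (hp : p.Prime) (hn : Nk N (0 + 1) = ⊥) (hK : Kp L Fr A B N 0 s E φ χ kp)
    (hsur : Function.Surjective φ) {v : Pl K} (hv : v ∈ s) (ht : φ (L.t v) = 1) {g : P}
    (hg : g ∈ Nk N 0) (f : P ⧸ N) (u : P) (hu : χ v (u * g * u⁻¹) ≠ 0) :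
    ∃ (τ : Gal(Ω/K)) (c : ℂ), c ≠ 1 ∧
      ∀ y, h0 hn g hg f (php hn hK τ * y) = c * h0 hn g hg f y := by
  obtain ⟨σ, hσ⟩ := hsur ((u⁻¹ : P) : P ⧸ N)
  have h1 : kpd hn hK (σ * L.t v * σ⁻¹) = tw (φ σ) (kpd hn hK (L.t v)) := by
    have h2 : kpd hn hK (1 : Gal(Ω/K)) = 0 := congrArg Hs.k (map_one (php hn hK))
    have h3 := kpd_mul hn hK σ σ⁻¹
    rw [mul_inv_cancel, h2] at h3
    rw [kpd_mul, kpd_mul, map_mul, ht, mul_one, add_right_comm, ← h3, zero_add]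
  have h2 : φ (σ * L.t v * σ⁻¹) = 1 := by
    rw [map_mul, map_mul, ht, mul_one, map_inv, mul_inv_cancel]
  have h3 : tw (φ σ) (kpd hn hK (L.t v)) (lm g hg) = χ v (u * g * u⁻¹) := by
    rw [H48.UX.tw_apply, kpd_t hn hK hv, hσ, ← QuotientGroup.mk_inv, inv_inv, ll_smul, ll_lm]
  refine ⟨σ * L.t v * σ⁻¹, ep p (χ v (u * g * u⁻¹)), fun h => hu ((ep_eq_one hp _).1 h),
    fun y => ?_⟩
  have h4 : (php hn hK (σ * L.t v * σ⁻¹) * y).g = y.g := by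
    rw [mul_g, php_apply, h2, one_mul]
  have h5 : (php hn hK (σ * L.t v * σ⁻¹) * y).k (lm g hg) =
      χ v (u * g * u⁻¹) + y.k (lm g hg) := by
    rw [mul_k, php_apply]
    show (kpd hn hK (σ * L.t v * σ⁻¹) + tw (φ (σ * L.t v * σ⁻¹)) y.k) (lm g hg) = _
    rw [h1, h2, tw_one, AddMonoidHom.add_apply, h3]
  unfold h0
  rw [h4, h5, ep_add hp]
  split_ifs
  · rfl
  · rw [mul_zero]

end tau

theorem fz (k : Fin (0 + 1)) : k = 0 := Subsingleton.elim (α := Fin 1) k 0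

section box

variable {Fr : FR L} {Q : DP K Ω} {B : SD D Q A} {E Zw : Finset (Pl K)} {W : Pl K → FW A}
  {Yw : Fin A.g → FW A} {l : List (Pl K)} {k M : ℕ}

/-- the box for one variable -/
theorem bx_one (X : Bs A P N 0) (F : (Fin (0 + 1) → Pl K) → ℂ) :
    ∑ q ∈ X.bx Zw, F q = ∑ w ∈ BX D Zw X.s (X.lo 0) (X.hi 0), F fun _ => w := by
  refine Finset.sum_bij' (fun q _ => q 0) (fun w _ => fun _ => w) ?_ ?_ ?_ ?_ ?_
  · intro q hq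
    exact Fintype.mem_piFinset.1 (Finset.mem_filter.1 hq).1 0
  · intro w hw
    refine Finset.mem_filter.2 ⟨Fintype.mem_piFinset.2 fun k => ?_, fun a b _ => ?_⟩
    · rw [fz k]
      exact hw
    · exact (fz a).trans (fz b).symm
  · intro q _
    funext k
    rw [fz k]
  · intro w _
    rfl
  · intro q _
    congr 1
    funext k
    rw [fz k]

/-- the sum over the box -/
theorem sm_eq (hp : p.Prime) (hZ : ∀ v ∈ Zw, v ∉ D.S0) (hl : l.Nodup)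
    (hlZ : ∀ v, v ∈ l ↔ v ∈ Zw ∨ v ∈ D.S0) (hR : Rel k M L Fr A B Zw l W Yw) [Finite P]
    (hn : Nk N (0 + 1) = ⊥) (hS : Sml p k M (Hs p (LL N 0 hn) (P ⧸ N))) (X : Bs A P N 0)
    (hE : E ⊆ X.s) (hs : X.s ⊆ Zw) (hg1 : ∀ v, v ∉ X.s → X.g v = 1) (hφ : HonE L E X.s X.φ)
    (hφ' : hat L A X.φ = (QuotientGroup.mk' N).comp (ev A X.g X.α)) (hG : ∀ v x, ‖X.G v x‖ ≤ 1)
    (hch : X.ch Fr E) {kp : Gal(Ω/K) → P → ZMod p} (hK : Kp L Fr A B N 0 X.s E X.φ X.χ kp)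
    (gk : Fin (0 + 1) → P) (fk : Fin (0 + 1) → P ⧸ N) (hg : gk 0 ∈ Nk N 0)
    (hgf : ∀ x : P, (x : P ⧸ N) = fk 0 → x * gk 0 * x⁻¹ = gk 0) (Gk : Fin (0 + 1) → P → ℂ)
    (hG1 : ∀ k x, ‖Gk k x‖ ≤ 1) (hG2 : ∀ k x, Gk k x ≠ 0 → (x : P ⧸ N) = fk k)
    (hG3 : ∀ k x, ∀ u ∈ Nk N 0, Gk k (x * u) = Gk k x) :
    ∃ c : ℂ, ‖c‖ ≤ 1 ∧ X.sm W Zw gk Gk =
      c * ∑ w ∈ BX D Zw X.s (X.lo 0) (X.hi 0), h0 hn (gk 0) hg (fk 0) (php hn hK (Fr.F w)) := by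
  obtain ⟨x₀, hx₀⟩ := QuotientGroup.mk_surjective (fk 0)
  refine ⟨(∏ v ∈ X.s, X.G v (ev A X.g X.α (W v))) * Gk 0 x₀, ?_, ?_⟩
  · rw [norm_mul, norm_prod]
    exact mul_le_one₀ (Finset.prod_le_one (fun _ _ => norm_nonneg _) fun v _ => hG v _)
      (norm_nonneg _) (hG1 0 x₀)
  have hp0 : NeZero p := ⟨hp.ne_zero⟩
  have hgk : ∀ k, gk k ∈ Nk N 0 := fun k => by rw [fz k]; exact hg
  have hprs : Function.Surjective (prQ (p := p) (V := LL N 0 hn) (Q := P ⧸ N)) := fun g =>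
    ⟨⟨0, 0, 0, g⟩, rfl⟩
  have hQ : Sml p k M (P ⧸ N) := sml_surj hS prQ hprs
  have hsE : E ∪ X.s = X.s := Finset.union_eq_right.2 hE
  have hU : Unz L X.s X.φ := by
    have h := hφ.unz
    rwa [hsE] at h
  have hUZ : Unz L Zw X.φ := ⟨hU.1, fun v hv hz => hU.2 v hv fun h => hz (hs h)⟩
  have hXg : ∀ v ∈ Zw, hat L A X.φ (W v) = X.φ (Fr.F v) := (hR.2.2.1 _ hQ X.φ hUZ).1
  have hg1N : ∀ v, v ∉ X.s → X.g v ∈ N := fun v hv => by
    rw [hg1 v hv]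
    exact N.one_mem
  unfold Bs.sm
  rw [bx_one X fun q => (∏ v ∈ X.s, X.G v (X.th gk q (W v))) * ∏ k, Gk k (X.th gk q (W (q k))),
    Finset.mul_sum]
  refine Finset.sum_congr rfl fun w hw => ?_
  have hq : (fun _ => w : Fin (0 + 1) → Pl K) ∈ X.bx Zw := by
    refine Finset.mem_filter.2 ⟨Fintype.mem_piFinset.2 fun k => ?_, fun a b _ => ?_⟩
    · rw [fz k]
      exact hw
    · exact (fz a).trans (fz b).symm
  have hwZ : w ∈ Zw := (bx_mem hq 0).1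
  have hws : w ∉ X.s := (bx_mem hq 0).2.2.1
  have hth1 : X.th (fun _ => 1) (fun _ => w) = ev A X.g X.α := by
    rw [th_glb]
    congr 1
    funext v
    by_cases h : v = w
    · subst h
      rw [glb_q X (fun _ => 1) (bx_inj hq) 0, hg1 v hws]
    · exact glb_n X _ fun _ h' => h h'.symm
  have h1 := phf hp hZ hl hlZ hR hn hS X hE hs hg1N hφ hφ' hch hK (g := fun _ => 1) (d := gk)
    (fun _ => N.one_mem) hgk hq
  have h2 : (fun k => gk k * 1 : Fin (0 + 1) → P) = gk := funext fun k => mul_one _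
  rw [h2, hth1] at h1
  have h3 : ((ev A X.g X.α (W w) : P) : P ⧸ N) = X.φ (Fr.F w) := by
    rw [← hXg w hwZ, hφ']
    rfl
  have h4 : ((X.th gk (fun _ => w) (W w) : P) : P ⧸ N) = X.φ (Fr.F w) := by
    have h := DFunLike.congr_fun (th_hat (L := L) X hg1N hφ' (g := gk) hgk hq) (W w)
    rw [hXg w hwZ] at h
    rw [h, th_glb]
    rfl
  rw [h1, Fin.sum_univ_one, Fin.prod_univ_one]
  unfold h0
  rw [php_apply]
  show ep p (kp (Fr.F w) (ev A X.g X.α (W w) * gk 0 * (ev A X.g X.α (W w))⁻¹)) *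
    (∏ v ∈ X.s, X.G v (ev A X.g X.α (W v))) * Gk 0 (X.th gk (fun _ => w) (W w)) =
    (∏ v ∈ X.s, X.G v (ev A X.g X.α (W v))) * Gk 0 x₀ *
      if X.φ (Fr.F w) = fk 0 then ep p (kp (Fr.F w) (gk 0)) else 0
  by_cases hf : X.φ (Fr.F w) = fk 0
  · rw [if_pos hf, hgf _ (h3.trans hf)]
    have h5 : Gk 0 (X.th gk (fun _ => w) (W w)) = Gk 0 x₀ := by
      have h6 : x₀⁻¹ * X.th gk (fun _ => w) (W w) ∈ N := by
        rw [← QuotientGroup.eq_one_iff, QuotientGroup.mk_mul, QuotientGroup.mk_inv, hx₀, h4, hf,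
          inv_mul_cancel]
      have h7 := hG3 0 x₀ _ h6
      rwa [mul_inv_cancel_left] at h7
    rw [h5]
    ring
  · rw [if_neg hf, mul_zero]
    have h5 : Gk 0 (X.th gk (fun _ => w) (W w)) = 0 := by
      by_contra h6
      exact hf (h4.symm.trans (hG2 0 _ h6))
    rw [h5, mul_zero]

/-- the sum over the conjugates -/
theorem smz_le [Fintype P] {m : ℕ} (hm : Nat.card P ≤ m) (hn : Nk N (0 + 1) = ⊥)
    (X : Bs A P N 0) (gk : Fin (0 + 1) → P) (hg : gk 0 ∈ Nk N 0) (Gk : Fin (0 + 1) → P → ℂ)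
    (hG3 : ∀ k x, ∀ u ∈ Nk N 0, Gk k (x * u) = Gk k x) :
    ‖X.smz W Zw gk Gk‖ ≤ m * ‖X.sm W Zw gk Gk‖ := by
  have hgk : ∀ k, gk k ∈ Nk N 0 := fun k => by rw [fz k]; exact hg
  unfold Bs.smz
  have h1 : ∀ z ∈ Fintype.piFinset (fun _ : Fin (0 + 1) =>
      (Finset.univ.filter fun x : P => x ∈ Nk N (0 - 1))),
      X.sm W Zw (fun k => z k * gk k * (z k)⁻¹) (fun k x => Gk k ((z k)⁻¹ * x * z k)) =
        X.sm W Zw gk Gk := by
    intro z hz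
    have hz' : ∀ k, z k ∈ Nk N 0 := fun k =>
      (Finset.mem_filter.1 (Fintype.mem_piFinset.1 hz k)).2
    have h2 : (fun k => z k * gk k * (z k)⁻¹) = gk := by
      funext k
      rw [nk_cm hn (hz' k) (hgk k), mul_inv_cancel_right]
    have h3 : (fun k x => Gk k ((z k)⁻¹ * x * z k)) = Gk := by
      funext k x
      have h4 : x⁻¹ * (z k)⁻¹ * x * z k ∈ Nk N 0 := by
        refine Subgroup.mul_mem _ ?_ (hz' k)
        have h5 := (nk_normal N 0).conj_mem _ (Subgroup.inv_mem _ (hz' k)) x⁻¹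
        rwa [inv_inv] at h5
      rw [← hG3 k x _ h4]
      congr 1
      group
    rw [h2, h3]
  rw [Finset.sum_congr rfl h1, Finset.sum_const, Fintype.card_piFinset_const, nsmul_eq_mul,
    norm_mul]
  refine mul_le_mul_of_nonneg_right ?_ (norm_nonneg _)
  rw [Complex.norm_natCast]
  norm_cast
  rw [zero_add, pow_one]
  refine (Finset.card_le_card (Finset.filter_subset _ _)).trans ?_
  rw [Finset.card_univ, ← Nat.card_eq_fintype_card]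
  exact hm

omit [Field Ω] [Algebra K Ω] in
private theorem one_bx {Z m : Finset (Pl K)} {lo hi : ℝ}
    (hZ : ∀ w, D.Gd w → (nm w : ℝ) ≤ hi → w ∈ Z) :
    BX D Z m lo hi = (PI K lo hi true).filter (fun w => w ∉ D.S0 ∧ w ∉ m) := by
  ext w
  unfold BX PI RD0.Gd
  simp only [Finset.mem_filter, mem_PB]
  constructor
  · rintro ⟨h1, ⟨h2, h3⟩, h4, h5, h6⟩
    exact ⟨⟨h6, h5, fun _ => h3⟩, h2, h4⟩
  · rintro ⟨⟨h1, h2, h3⟩, h4, h5⟩
    exact ⟨hZ w ⟨h4, h3 trivial⟩ h1, ⟨h4, h3 trivial⟩, h5, h2, h1⟩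

omit [Field Ω] [Algebra K Ω] in
private theorem one_int {m : Finset (Pl K)} {lo hi : ℝ} :
    (PI K lo hi true).filter (fun w => w ∉ D.S0 ∧ w ∉ m) =
      (PB K hi).filter (fun w => D.Gd w ∧ w ∉ m) \ (PB K lo).filter (fun w => D.Gd w ∧ w ∉ m) := by
  ext w
  unfold PI RD0.Gd
  simp only [Finset.mem_filter, Finset.mem_sdiff, mem_PB]
  constructor
  · rintro ⟨⟨h1, h2, h3⟩, h4, h5⟩
    exact ⟨⟨h1, ⟨h4, h3 trivial⟩, h5⟩, fun h => absurd h.1 (not_le.2 h2)⟩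
  · rintro ⟨⟨h1, ⟨h2, h3⟩, h4⟩, h5⟩
    refine ⟨⟨h1, ?_, fun _ => h3⟩, h2, h4⟩
    by_contra h
    exact h5 ⟨not_lt.1 h, ⟨h2, h3⟩, h4⟩

/-- one box -/
theorem one_box [IsAlgClosure K Ω] [NeZero p] (hp : p.Prime) (hζ : IsPrimitiveRoot ζ p)
    {k j : ℕ} {z : K} {Mg Cg C' : ℕ} {C₁ Y : ℝ} (hx : Fx k j z Mg Cg C' C₁ Y Fr B Zw l W Yw)
    [Fintype P] {κ m : ℕ} (hPκ : ∀ x : P, x ^ p ^ κ = 1) (hκ : κ + 2 ≤ k) (hPm : Nat.card P ≤ m)
    (hM : m * (p ^ m * (p * m)) ≤ p ^ k) (hMg : m * (p ^ m * (p * m)) ≤ Mg)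
    (hn : Nk N (0 + 1) = ⊥) (hN : N = Subgroup.closure {x | x ∈ N ∧ x ^ p = 1}) (X : Bs A P N 0)
    (hE : E ⊆ X.s) (hs : X.s ⊆ Zw) (hg1 : ∀ v, v ∉ X.s → X.g v = 1) (hφ : HonE L E X.s X.φ)
    (hsur : Function.Surjective X.φ)
    (hφ' : hat L A X.φ = (QuotientGroup.mk' N).comp (ev A X.g X.α)) (hG : ∀ v x, ‖X.G v x‖ ≤ 1)
    (hch : X.ch Fr E) (had : X.ad W E) (gk : Fin (0 + 1) → P) (fk : Fin (0 + 1) → P ⧸ N)
    (hg : gk 0 ∈ Nk N 0) (hgf : ∀ x : P, (x : P ⧸ N) = fk 0 → x * gk 0 * x⁻¹ = gk 0)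
    (hlk : X.lk gk) (Gk : Fin (0 + 1) → P → ℂ)
    (hG1 : ∀ k x, ‖Gk k x‖ ≤ 1) (hG2 : ∀ k x, Gk k x ≠ 0 → (x : P ⧸ N) = fk k)
    (hG3 : ∀ k x, ∀ u ∈ Nk N 0, Gk k (x * u) = Gk k x) (hnr : nr X.s ≤ Y ^ Cg)
    (hlo : 0 ≤ X.lo 0) (hlh : X.lo 0 ≤ X.hi 0) (hhi : X.hi 0 ≤ Y ^ Cg) (hhi' : X.hi 0 ≤ Y ^ C₁) :
    ∃ Φ : Gal(Ω/K) →* Hs p (LL N 0 hn) (P ⧸ N), HonE L E X.s Φ ∧
      (∃ (τ : Gal(Ω/K)) (c : ℂ), c ≠ 1 ∧
        ∀ y, h0 hn (gk 0) hg (fk 0) (Φ τ * y) = c * h0 hn (gk 0) hg (fk 0) y) ∧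
      ‖X.smz W Zw gk Gk‖ ≤ m * ((C' * X.hi 0 ^ (3 / 4 : ℝ) + Real.log Y ^ C') +
        (Gx Fr X.s (X.hi 0) Φ (h0 hn (gk 0) hg (fk 0)) +
          Gx Fr X.s (X.lo 0) Φ (h0 hn (gk 0) hg (fk 0)))) := by
  obtain ⟨kp, hK⟩ := uni_fx hp hζ hx hPκ hκ hPm hM hn hN X hE hs hφ hφ' hch had
  have hS := sml_hsl (N := N) (n := 0) hp hPκ hκ hPm hM hn hN
  have hg1N : ∀ v, v ∉ X.s → X.g v ∈ N := fun v hv => by
    rw [hg1 v hv]
    exact N.one_mem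
  have hφ1 : ∀ v ∈ X.s, v ∉ E → X.φ (L.t v) = 1 := by
    intro v hv hvE
    rw [← hat_inl L A X.φ v, DFunLike.congr_fun hφ' _]
    show ((ev A X.g X.α (FreeGroup.of (Sum.inl v)) : P) : P ⧸ N) = 1
    have hev : ev A X.g X.α (FreeGroup.of (Sum.inl v)) = X.g v := by
      unfold H35.UB.ev
      rw [FreeGroup.lift_apply_of]
      rfl
    rw [hev]
    exact (QuotientGroup.eq_one_iff _).2 (hch.mem v hv hvE)
  have hhon := php_hon hn hK hp hφ hφ1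
  refine ⟨php hn hK, hhon, ?_, ?_⟩
  · obtain ⟨v, hv, u, hu⟩ := hlk
    have h1 : brk (List.ofFn fun j => u j * gk j * (u j)⁻¹) = u 0 * gk 0 * (u 0)⁻¹ := rfl
    rw [h1] at hu
    have hvE : v ∉ E := fun h => hu (hch.exc v h _ ((nk_normal N 0).conj_mem _ hg _))
    exact tau hp hn hK hsur hv (hφ1 v hv hvE) hg (fk 0) (u 0) hu
  · obtain ⟨c, hc, h1⟩ := sm_eq hp hx.out hx.nd hx.ml hx.rel hn hS X hE hs hg1 hφ hφ' hG hch hK gk fk
      hg hgf Gk hG1 hG2 hG3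
    refine (smz_le hPm hn X gk hg Gk hG3).trans (mul_le_mul_of_nonneg_left ?_ (Nat.cast_nonneg m))
    have hun : Unz L X.s (php hn hK) := by
      have h := hhon.unz
      rwa [Finset.union_eq_right.2 hE] at h
    have hcard : Nat.card (Hs p (LL N 0 hn) (P ⧸ N)) ≤ Mg := by
      refine (card_hs p _ _).trans (le_trans ?_ hMg)
      have h2 : Nat.card (LL N 0 hn) ≤ m := ll_card.trans hPm
      have h3 : Nat.card (P ⧸ N) ≤ m :=
        (Nat.card_le_card_of_surjective _ (QuotientGroup.mk'_surjective N)).trans hPm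
      exact Nat.mul_le_mul h2 (Nat.mul_le_mul (Nat.pow_le_pow_right hp.pos h2)
        (Nat.mul_le_mul le_rfl h3))
    have h3 := hx.gl (Hs p (LL N 0 hn) (P ⧸ N)) hS.1 hcard (php hn hK) X.s hun hnr
      (h0 hn (gk 0) hg (fk 0)) (h0_le hn (gk 0) hg (fk 0)) (X.lo 0) (X.hi 0) true (hlo.trans hlh) hhi
    obtain ⟨h, hh⟩ : ∃ h, h = h0 (p := p) hn (gk 0) hg (fk 0) := ⟨_, rfl⟩
    rw [← hh] at h1 h3 ⊢
    obtain ⟨Φ, hΦ⟩ : ∃ Φ, Φ = php hn hK := ⟨_, rfl⟩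
    rw [← hΦ] at h1 h3 ⊢
    rw [h1, norm_mul, one_bx fun w hw hw' => hx.all w hw (hw'.trans hhi')]
    have h4 : ∑ w ∈ (PI K (X.lo 0) (X.hi 0) true).filter (fun w => w ∉ D.S0 ∧ w ∉ X.s),
        h (Φ (Fr.F w)) =
        ∑ w ∈ (PI K (X.lo 0) (X.hi 0) true).filter (fun w => w ∉ D.S0 ∧ w ∉ X.s),
          (h (Φ (Fr.F w)) - av Φ h (Φ (Fr.F w))) +
        (∑ w ∈ (PB K (X.hi 0)).filter (fun w => D.Gd w ∧ w ∉ X.s), av Φ h (Φ (Fr.F w)) -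
          ∑ w ∈ (PB K (X.lo 0)).filter (fun w => D.Gd w ∧ w ∉ X.s), av Φ h (Φ (Fr.F w))) := by
      rw [Finset.sum_sub_distrib]
      have h5 : ∑ w ∈ (PI K (X.lo 0) (X.hi 0) true).filter (fun w => w ∉ D.S0 ∧ w ∉ X.s),
          av Φ h (Φ (Fr.F w)) =
          ∑ w ∈ (PB K (X.hi 0)).filter (fun w => D.Gd w ∧ w ∉ X.s), av Φ h (Φ (Fr.F w)) -
          ∑ w ∈ (PB K (X.lo 0)).filter (fun w => D.Gd w ∧ w ∉ X.s), av Φ h (Φ (Fr.F w)) := by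
        rw [one_int]
        refine Finset.sum_sdiff_eq_sub ?_
        intro w hw
        rw [Finset.mem_filter, mem_PB] at hw ⊢
        exact ⟨hw.1.trans hlh, hw.2⟩
      rw [h5]
      ring
    refine (mul_le_of_le_one_left (norm_nonneg _) hc).trans ?_
    rw [h4]
    refine (norm_add_le _ _).trans (add_le_add h3 ?_)
    exact norm_sub_le _ _

end box

private theorem one_exp (k : ℕ) {ε : ℝ} (hε : 0 < ε) :
    ∃ L₀ : ℝ, ∀ L : ℝ, L₀ ≤ L → L ^ k * Real.exp (-(L ^ ε) / 4) ≤ 1 := by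
  obtain ⟨j, hj⟩ := exists_nat_ge (((4 * k : ℕ) : ℝ) / ε)
  have h1 := Real.tendsto_pow_mul_exp_neg_atTop_nhds_zero j
  have h3 := h1.comp (tendsto_rpow_atTop hε)
  obtain ⟨L₀, hL₀⟩ := Filter.eventually_atTop.1
    (h3.eventually_le_const (show (0 : ℝ) < 1 by norm_num))
  refine ⟨max L₀ 1, fun L hL => ?_⟩
  have h5 := hL₀ L (le_of_max_le_left hL)
  have h6 : (1 : ℝ) ≤ L := le_of_max_le_right hL
  have h7 : L ^ (4 * k) ≤ (L ^ ε) ^ j := by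
    rw [← Real.rpow_natCast, ← Real.rpow_natCast, ← Real.rpow_mul (by linarith)]
    apply Real.rpow_le_rpow_of_exponent_le h6
    rw [div_le_iff₀ hε] at hj
    linarith [mul_comm (j : ℝ) ε]
  have h8 : L ^ (4 * k) * Real.exp (-(L ^ ε)) ≤ 1 :=
    (mul_le_mul_of_nonneg_right h7 (Real.exp_pos _).le).trans h5
  have h9 : (L ^ k * Real.exp (-(L ^ ε) / 4)) ^ 4 ≤ 1 := by
    refine le_trans (le_of_eq ?_) h8
    rw [mul_pow, ← pow_mul, mul_comm k 4, ← Real.exp_nat_mul]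
    congr 2
    push_cast
    ring
  exact (pow_le_one_iff_of_nonneg (mul_nonneg (pow_nonneg (by linarith) _) (Real.exp_pos _).le)
    (by norm_num)).1 h9

private theorem one_er {lo hi T R : ℝ} {C' : ℕ} (hR : 0 ≤ R) (hT : 0 ≤ T) (h1 : Real.exp T ≤ lo)
    (h2 : lo ≤ hi) (h3 : hi ≤ 2 * lo) :
    lo⁻¹ * (C' * hi ^ (3 / 4 : ℝ) + R) ≤ (2 * C' + R) * Real.exp (-T / 4) := by
  have hlo : 0 < lo := (Real.exp_pos T).trans_le h1
  have h4 : lo⁻¹ ≤ Real.exp (-T / 4) := by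
    calc lo⁻¹ ≤ (Real.exp T)⁻¹ := inv_anti₀ (Real.exp_pos T) h1
      _ = Real.exp (-T) := (Real.exp_neg T).symm
      _ ≤ Real.exp (-T / 4) := Real.exp_le_exp.2 (by linarith)
  have h5 : lo⁻¹ * hi ^ (3 / 4 : ℝ) ≤ 2 * Real.exp (-T / 4) := by
    have h6 : hi ^ (3 / 4 : ℝ) ≤ 2 * lo ^ (3 / 4 : ℝ) := by
      calc hi ^ (3 / 4 : ℝ) ≤ (2 * lo) ^ (3 / 4 : ℝ) :=
            Real.rpow_le_rpow (hlo.le.trans h2) h3 (by norm_num)
        _ = 2 ^ (3 / 4 : ℝ) * lo ^ (3 / 4 : ℝ) := Real.mul_rpow (by norm_num) hlo.le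
        _ ≤ 2 ^ (1 : ℝ) * lo ^ (3 / 4 : ℝ) := by
            refine mul_le_mul_of_nonneg_right ?_ (Real.rpow_nonneg hlo.le _)
            exact Real.rpow_le_rpow_of_exponent_le (by norm_num) (by norm_num)
        _ = 2 * lo ^ (3 / 4 : ℝ) := by rw [Real.rpow_one]
    have h7 : lo⁻¹ * lo ^ (3 / 4 : ℝ) = lo ^ (-1 / 4 : ℝ) := by
      rw [← Real.rpow_neg_one lo, ← Real.rpow_add hlo]
      norm_num
    have h8 : lo ^ (-1 / 4 : ℝ) ≤ Real.exp (-T / 4) := by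
      rw [Real.rpow_def_of_pos hlo]
      refine Real.exp_le_exp.2 ?_
      have h9 : T ≤ Real.log lo := (Real.le_log_iff_exp_le hlo).2 h1
      linarith
    calc lo⁻¹ * hi ^ (3 / 4 : ℝ) ≤ lo⁻¹ * (2 * lo ^ (3 / 4 : ℝ)) :=
          mul_le_mul_of_nonneg_left h6 (inv_nonneg.2 hlo.le)
      _ = 2 * (lo⁻¹ * lo ^ (3 / 4 : ℝ)) := by ring
      _ ≤ 2 * Real.exp (-T / 4) := by
          rw [h7]
          linarith
  calc lo⁻¹ * (C' * hi ^ (3 / 4 : ℝ) + R) = C' * (lo⁻¹ * hi ^ (3 / 4 : ℝ)) + R * lo⁻¹ := by ring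
    _ ≤ C' * (2 * Real.exp (-T / 4)) + R * Real.exp (-T / 4) := by gcongr
    _ = _ := by ring

/-- the box inequality `BGb` for one variable, all groups of order at most `m`, exponent `p ^ κ` -/
def SBG0 (D : RD0 K p ζ) (Ω : Type) [Field Ω] [Algebra K Ω] (κ m : ℕ) : Stm D Ω :=
  fun A _ Fr W Zw C₁ A₀ ε Y => ∀ (P : Type) [Group P] [Fintype P], Nat.card P ≤ m →
    (∀ x : P, x ^ (p ^ κ) = 1) → ∀ (N : Subgroup P) [N.Normal], Nk N (0 + 1) = ⊥ →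
      N = Subgroup.closure {x | x ∈ N ∧ x ^ p = 1} → ∀ E ⊆ Zw,
        BGb Fr A W Zw E N 0 C₁ A₀ ε Y

theorem one [IsAlgClosure K Ω] (hp : p.Prime) (hζ : IsPrimitiveRoot ζ p) {κ m k j : ℕ} {z : K}
    (hκ : κ + 2 ≤ k) (hk : 3 * m + 1 ≤ k) (hG : GPU D Ω (κ + 2)) :
    Inp D Ω k j z (SBG0 D Ω κ m) := by
  have hp0 : NeZero p := ⟨hp.ne_zero⟩
  intro A Q B C₁ A₀ ε hε
  obtain ⟨c₁, hc₁⟩ := exists_nat_ge C₁
  obtain ⟨a₀, ha₀⟩ := exists_nat_ge A₀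
  obtain ⟨b, hb⟩ : ∃ b, b = m * (p ^ m * (p * m)) := ⟨_, rfl⟩
  obtain ⟨Y₁, hY₁⟩ := hG (b + 1) c₁ (a₀ + 1) ε hε
  obtain ⟨e, Y₂, hY₂⟩ := nrs K c₁
  refine ⟨b, c₁, fun C' => ?_⟩
  obtain ⟨L₀, hL₀⟩ := one_exp (C' + 2 + 1 + e + (a₀ + 1)) hε
  obtain ⟨L₁, hL₁⟩ : ∃ L₁ : ℝ, L₁ = max L₀ (max 2 (max (2 * C') (3 * m + 1))) := ⟨_, rfl⟩
  refine ⟨max 3 (max Y₁ (max Y₂ (Real.exp L₁))), le_max_left _ _, ?_⟩
  intro Y hY L Fr Zw l W Yw hx P _ _ hPm hPκ N _ hn hN E hEZ gk fk hgk Gk hG1 hG2 hG3 ι I X hI1 hI2 hI3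
    hI4 hI5
  have hY3 : 3 ≤ Y := (le_max_left _ _).trans hY
  have hYa : Y₁ ≤ Y := (le_max_left _ _).trans ((le_max_right _ _).trans hY)
  have hYb : Y₂ ≤ Y :=
    (le_max_left _ _).trans ((le_max_right _ _).trans ((le_max_right _ _).trans hY))
  have hYc : Real.exp L₁ ≤ Y :=
    (le_max_right _ _).trans ((le_max_right _ _).trans ((le_max_right _ _).trans hY))
  have hY1 : 1 ≤ Y := by linarith
  obtain ⟨l₀, hl₀⟩ : ∃ l₀, l₀ = Real.log Y := ⟨_, rfl⟩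
  have hlL : L₁ ≤ l₀ := by
    rw [hl₀, Real.le_log_iff_exp_le (by linarith)]
    exact hYc
  rw [hL₁] at hlL
  have hl0 : L₀ ≤ l₀ := (le_max_left _ _).trans hlL
  have hl2 : 2 ≤ l₀ := (le_max_left _ _).trans ((le_max_right _ _).trans hlL)
  have hlC : 2 * (C' : ℝ) ≤ l₀ :=
    (le_max_left _ _).trans ((le_max_right _ _).trans ((le_max_right _ _).trans hlL))
  have hlm : 3 * (m : ℝ) + 1 ≤ l₀ :=
    (le_max_right _ _).trans ((le_max_right _ _).trans ((le_max_right _ _).trans hlL))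
  have hll : 0 ≤ Real.log (Real.log Y) := by
    rw [← hl₀]
    exact Real.log_nonneg (by linarith)
  have hcY : Y ^ C₁ ≤ Y ^ c₁ := by
    rw [← Real.rpow_natCast]
    exact Real.rpow_le_rpow_of_exponent_le hY1 hc₁
  have hg : gk 0 ∈ Nk N 0 := (hgk 0).1
  have hgf : ∀ x : P, (x : P ⧸ N) = fk 0 → x * gk 0 * x⁻¹ = gk 0 := by
    intro x hxf
    have h1 : x * gk 0 * x⁻¹ * (gk 0)⁻¹ ∈ Nk N (0 + 1) := (hgk 0).2.2 x hxf
    rw [hn, Subgroup.mem_bot] at h1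
    exact mul_inv_eq_one.1 h1
  -- one box
  have hbox : ∀ i ∈ I, ∃ Φ : Gal(Ω/K) →* Hs p (LL N 0 hn) (P ⧸ N), HonE L E (X i).s Φ ∧
      (∃ (τ : Gal(Ω/K)) (c : ℂ), c ≠ 1 ∧
        ∀ y, h0 hn (gk 0) hg (fk 0) (Φ τ * y) = c * h0 hn (gk 0) hg (fk 0) y) ∧
      ‖(X i).smz W Zw gk Gk‖ ≤ m * ((C' * (X i).hi 0 ^ (3 / 4 : ℝ) + Real.log Y ^ C') +
        (Gx Fr (X i).s ((X i).hi 0) Φ (h0 hn (gk 0) hg (fk 0)) +
          Gx Fr (X i).s ((X i).lo 0) Φ (h0 hn (gk 0) hg (fk 0)))) := by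
    intro i hi
    obtain ⟨h1, h2, h3, -⟩ := hI1 i hi
    obtain ⟨h5, h6, h7, h8, h9⟩ := hI2 i hi
    obtain ⟨h10, h11, h12⟩ := hI3 i hi
    obtain ⟨h13, h14, -, h16⟩ := hI4 i hi 0
    exact one_box hp hζ hx hPκ hκ hPm (uni_k hp m hk) hb.ge hn hN (X i) h1 h2 h5 h6 h7 h8 h9 h10 h11
      gk fk hg hgf h12 Gk hG1 hG2 hG3 (h3.trans hcY) ((Real.exp_pos _).le.trans h13) h14
      (h16.trans hcY) h16
  choose! Φ hΦ using hbox
  have hft : Fintype (Hs p (LL N 0 hn) (P ⧸ N)) := Fintype.ofFinite _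
  obtain ⟨h, hh⟩ : ∃ h, h = h0 (p := p) hn (gk 0) hg (fk 0) := ⟨_, rfl⟩
  have hh1 : ∀ y, ‖h y‖ ≤ 1 := by
    rw [hh]
    exact h0_le hn (gk 0) hg (fk 0)
  rw [← hh] at hΦ
  have hcard : Nat.card (Hs p (LL N 0 hn) (P ⧸ N)) ≤ b := by
    refine (card_hs p _ _).trans ?_
    rw [hb]
    have h2 : Nat.card (LL N 0 hn) ≤ m := ll_card.trans hPm
    have h3 : Nat.card (P ⧸ N) ≤ m :=
      (Nat.card_le_card_of_surjective _ (QuotientGroup.mk'_surjective N)).trans hPm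
    exact Nat.mul_le_mul h2 (Nat.mul_le_mul (Nat.pow_le_pow_right hp.pos h2)
      (Nat.mul_le_mul le_rfl h3))
  have hpow : ∀ x : Hs p (LL N 0 hn) (P ⧸ N), x ^ p ^ (κ + 2) = 1 :=
    pow_hs hp (ll_exp hN) fun q => by
      obtain ⟨x, rfl⟩ := QuotientGroup.mk_surjective q
      rw [← QuotientGroup.mk_pow, hPκ]
      rfl
  -- the black box
  have hgp : ∀ x : ι → ℝ, (∀ i ∈ I, T0 ε Y ≤ x i ∧ x i ≤ Y ^ C₁) →
      ∑ i ∈ I, (nr (X i).s)⁻¹ * (x i)⁻¹ * Gx Fr (X i).s (x i) (Φ i) h ≤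
        l₀ ^ (-((a₀ : ℝ) + 1)) := by
    intro x hxx
    have h1 := hY₁ Y hYa L Fr E ι I (fun i => (X i).s) x
      (fun i hi => ⟨(hI1 i hi).1, (hI1 i hi).2.2.1.trans hcY,
        (hI1 i hi).2.2.2.trans (mul_le_mul_of_nonneg_right hc₁ hll)⟩)
      (fun i hi => ⟨(hxx i hi).1, (hxx i hi).2.trans hcY⟩)
      (fun t => (hI5 t).trans (by
        rw [← Real.rpow_natCast]
        exact Real.rpow_le_rpow_of_exponent_le (by linarith) hc₁))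
      (fun _ => Hs p (LL N 0 hn) (P ⧸ N)) Φ (fun i => av (Φ i) h) (fun i hi => ⟨?_, ?_, ?_, ?_, ?_⟩)
    · rw [hl₀]
      refine le_trans (le_of_eq ?_) (h1.trans (le_of_eq ?_))
      · refine Finset.sum_congr rfl fun i hi => ?_
        obtain ⟨τ, c, hc1, hτ⟩ := (hΦ i hi).2.1
        unfold Gx
        congr 2
        refine Finset.sum_congr rfl fun w _ => ?_
        rw [av_mean (Φ i) h τ c hc1 hτ, sub_zero]
      · push_cast
        rfl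
    · refine le_trans (Finset.card_le_card (Finset.filter_subset _ _)) ?_
      rw [Finset.card_univ, ← Nat.card_eq_fintype_card]
      omega
    · intro y _
      exact hpow y
    · intro y _ z hz
      exact av_cls (Φ i) h hz
    · intro y _
      refine (av_le (Φ i) h hh1 y).trans ?_
      push_cast
      linarith [Nat.cast_nonneg (α := ℝ) b]
    · exact (hΦ i hi).1
  have h1 := hgp (fun i => (X i).hi 0) fun i hi =>
    ⟨(hI4 i hi 0).1.trans (hI4 i hi 0).2.1, (hI4 i hi 0).2.2.2⟩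
  have h2 := hgp (fun i => (X i).lo 0) fun i hi =>
    ⟨(hI4 i hi 0).1, (hI4 i hi 0).2.1.trans (hI4 i hi 0).2.2.2⟩
  have h3 := hY₂ Y hYb ι I (fun i => (X i).s) (fun i hi => (hI1 i hi).2.2.1.trans hcY)
    (fun t => (hI5 t).trans (by
      rw [← Real.rpow_natCast]
      exact Real.rpow_le_rpow_of_exponent_le (by linarith) hc₁))
  rw [← hl₀] at h3
  -- the terms
  obtain ⟨er, her⟩ : ∃ er, er = (2 * (C' : ℝ) + l₀ ^ C') * Real.exp (-(l₀ ^ ε) / 4) := ⟨_, rfl⟩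
  have hterm : ∀ i ∈ I, (nr (X i).s)⁻¹ * (∏ k, (X i).lo k)⁻¹ * ‖(X i).smz W Zw gk Gk‖ ≤
      m * (er * (nr (X i).s)⁻¹ +
        (2 * ((nr (X i).s)⁻¹ * ((X i).hi 0)⁻¹ * Gx Fr (X i).s ((X i).hi 0) (Φ i) h) +
          (nr (X i).s)⁻¹ * ((X i).lo 0)⁻¹ * Gx Fr (X i).s ((X i).lo 0) (Φ i) h)) := by
    intro i hi
    obtain ⟨h13, h14, h15, -⟩ := hI4 i hi 0
    have hlo : 0 < (X i).lo 0 := (Real.exp_pos _).trans_le h13
    have hhi : 0 < (X i).hi 0 := hlo.trans_le h14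
    have hnr : 0 ≤ (nr (X i).s)⁻¹ := by
      unfold nr
      positivity
    have hg1 : 0 ≤ Gx Fr (X i).s ((X i).hi 0) (Φ i) h := norm_nonneg _
    have h16 : ((X i).lo 0)⁻¹ ≤ 2 * ((X i).hi 0)⁻¹ := by
      rw [← div_eq_mul_inv, inv_eq_one_div, div_le_div_iff₀ hlo hhi]
      linarith
    have h17 := one_er (C' := C') (R := l₀ ^ C') (T := l₀ ^ ε) (pow_nonneg (by linarith) _)
      (Real.rpow_nonneg (by linarith) _) (by
        rw [hl₀]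
        exact h13) h14 h15
    rw [← her] at h17
    rw [Fin.prod_univ_one]
    calc (nr (X i).s)⁻¹ * ((X i).lo 0)⁻¹ * ‖(X i).smz W Zw gk Gk‖
        ≤ (nr (X i).s)⁻¹ * ((X i).lo 0)⁻¹ *
            (m * ((C' * (X i).hi 0 ^ (3 / 4 : ℝ) + Real.log Y ^ C') +
              (Gx Fr (X i).s ((X i).hi 0) (Φ i) h + Gx Fr (X i).s ((X i).lo 0) (Φ i) h))) :=
          mul_le_mul_of_nonneg_left (hΦ i hi).2.2 (mul_nonneg hnr (inv_nonneg.2 hlo.le))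
      _ = m * ((nr (X i).s)⁻¹ * (((X i).lo 0)⁻¹ * (C' * (X i).hi 0 ^ (3 / 4 : ℝ) + l₀ ^ C')) +
            ((nr (X i).s)⁻¹ * (((X i).lo 0)⁻¹ * Gx Fr (X i).s ((X i).hi 0) (Φ i) h) +
              (nr (X i).s)⁻¹ * ((X i).lo 0)⁻¹ * Gx Fr (X i).s ((X i).lo 0) (Φ i) h)) := by
          rw [hl₀]
          ring
      _ ≤ m * ((nr (X i).s)⁻¹ * er +
            ((nr (X i).s)⁻¹ * ((2 * ((X i).hi 0)⁻¹) * Gx Fr (X i).s ((X i).hi 0) (Φ i) h) +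
              (nr (X i).s)⁻¹ * ((X i).lo 0)⁻¹ * Gx Fr (X i).s ((X i).lo 0) (Φ i) h)) := by
          gcongr
      _ = _ := by ring
  refine (Finset.sum_le_sum hterm).trans ?_
  rw [← Finset.mul_sum, Finset.sum_add_distrib, Finset.sum_add_distrib, ← Finset.mul_sum,
    ← Finset.mul_sum]
  have hl1 : 1 ≤ l₀ := by linarith
  have her0 : 0 ≤ er := by
    rw [her]
    have : 0 ≤ l₀ ^ C' := pow_nonneg (by linarith) _
    positivity
  have h4 : er * l₀ ^ e * (m * l₀ ^ (a₀ + 1)) ≤ 1 := by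
    refine le_trans ?_ (hL₀ l₀ hl0)
    have h5 : 2 * (C' : ℝ) + l₀ ^ C' ≤ l₀ ^ (C' + 2) := by
      have h6 : l₀ ≤ l₀ ^ (C' + 1) := le_self_pow₀ hl1 (by omega)
      have h7 : l₀ ^ C' ≤ l₀ ^ (C' + 1) := pow_le_pow_right₀ hl1 (by omega)
      have h8 : l₀ ^ (C' + 2) = l₀ * l₀ ^ (C' + 1) := by ring
      nlinarith
    have h6 : (m : ℝ) ≤ l₀ := by linarith [Nat.cast_nonneg (α := ℝ) m]
    rw [her]
    calc (2 * (C' : ℝ) + l₀ ^ C') * Real.exp (-(l₀ ^ ε) / 4) * l₀ ^ e * (m * l₀ ^ (a₀ + 1))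
        ≤ l₀ ^ (C' + 2) * Real.exp (-(l₀ ^ ε) / 4) * l₀ ^ e * (l₀ * l₀ ^ (a₀ + 1)) := by
          gcongr
      _ = l₀ ^ (C' + 2 + 1 + e + (a₀ + 1)) * Real.exp (-(l₀ ^ ε) / 4) := by ring
  have h5 : (m : ℝ) * (er * ∑ i ∈ I, (nr (X i).s)⁻¹) ≤ l₀ ^ (-((a₀ : ℝ) + 1)) := by
    have h6 : l₀ ^ (-((a₀ : ℝ) + 1)) = (l₀ ^ (a₀ + 1))⁻¹ := by
      rw [Real.rpow_neg (by linarith), ← Real.rpow_natCast]
      push_cast
      rfl
    have h7 : 0 < l₀ ^ (a₀ + 1) := pow_pos (by linarith) _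
    rw [h6, inv_eq_one_div, le_div_iff₀ h7]
    calc (m : ℝ) * (er * ∑ i ∈ I, (nr (X i).s)⁻¹) * l₀ ^ (a₀ + 1)
        ≤ (m : ℝ) * (er * l₀ ^ e) * l₀ ^ (a₀ + 1) := by gcongr
      _ = er * l₀ ^ e * (m * l₀ ^ (a₀ + 1)) := by ring
      _ ≤ 1 := h4
  have h6 : l₀ ^ (-(a₀ : ℝ)) = l₀ * l₀ ^ (-((a₀ : ℝ) + 1)) := by
    nth_rewrite 2 [← Real.rpow_one l₀]
    rw [← Real.rpow_add (by linarith)]
    congr 1
    ring
  have h7 : 0 ≤ l₀ ^ (-((a₀ : ℝ) + 1)) := Real.rpow_nonneg (by linarith) _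
  have h8 : l₀ ^ (-(a₀ : ℝ)) ≤ l₀ ^ (-A₀) :=
    Real.rpow_le_rpow_of_exponent_le hl1 (by linarith)
  rw [← hl₀]
  refine le_trans ?_ h8
  rw [h6, mul_add]
  calc (m : ℝ) * (er * ∑ i ∈ I, (nr (X i).s)⁻¹) +
        m * (2 * ∑ i ∈ I, (nr (X i).s)⁻¹ * ((X i).hi 0)⁻¹ * Gx Fr (X i).s ((X i).hi 0) (Φ i) h +
          ∑ i ∈ I, (nr (X i).s)⁻¹ * ((X i).lo 0)⁻¹ * Gx Fr (X i).s ((X i).lo 0) (Φ i) h)
      ≤ l₀ ^ (-((a₀ : ℝ) + 1)) +
        m * (2 * l₀ ^ (-((a₀ : ℝ) + 1)) + l₀ ^ (-((a₀ : ℝ) + 1))) := by gcongr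
    _ = (3 * m + 1) * l₀ ^ (-((a₀ : ℝ) + 1)) := by ring
    _ ≤ l₀ * l₀ ^ (-((a₀ : ℝ) + 1)) := mul_le_mul_of_nonneg_right hlm h7

/-- the input for all fields with enough roots of unity -/
theorem pone {p : ℕ} (hp : p.Prime) : PInp p fun κ m _ _ _ D => SBG0 D QBar κ m := by
  intro κ m
  refine ⟨max (κ + 2) (3 * m + 1), fun k hk => ?_⟩
  obtain ⟨M, hM⟩ := H35.NS2.gp2_all hp (κ + 2)
  refine ⟨M, fun n hn K _ ζ hζ z hz _ D => ?_⟩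
  have hz' : ∃ z' : K, IsPrimitiveRoot z' (p ^ M) := by
    refine ⟨z ^ (p ^ (n + 1 - M)), hz.pow (pow_pos hp.pos _) ?_⟩
    rw [← pow_add]
    congr 1
    omega
  obtain ⟨z', hz'⟩ := hz'
  exact one hp hζ ((le_max_left _ _).trans hk) ((le_max_right _ _).trans hk) (hM K ζ hζ z' hz' D)

end H62.UY
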